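import Pool.Agent.P8H81.LP.Stm2

/-!
# Project LPB: package TLT, the change of measure
-/

set_option autoImplicit false

open MeasureTheory ProbabilityTheory Filter Finset

namespace Pool.Agent.P8H46.LPB

open Pool.Agent.P8H81.LP

/-- the tilt -/
noncomputable def Tf (N : ℕ) (q : ℕ → ℝ) (R : ℕ → ℕ) (w : ℕ → (Fin 2 → ℤ) → ℝ) : ℝ :=
  ∑ n ∈ Icc 1 N, q n * ∑ y ∈ box (R n), w n y

/-- its variance -/
noncomputable def Gf (hc : (Fin 2 → ℤ) → ℝ) (N : ℕ) (q : ℕ → ℝ) (R : ℕ → ℕ) : ℝ :=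
  ∑ n ∈ Icc 1 N, (q n) ^ 2 * dbl hc (R n)

/-- the mean of one path -/
noncomputable def Yf (hc : (Fin 2 → ℤ) → ℝ) (β : ℝ) (N : ℕ) (q : ℕ → ℝ) (R : ℕ → ℕ)
    (σ : Fin N → Fin 2 × Bool) : ℝ :=
  Real.exp (-β * ∑ n ∈ Icc 1 N, q n * ∑ y ∈ box (R n), hc (pos σ n - y))

/-- the weighted inequality between the means, in the form that is used -/
lemma pointwise {θ r s X A K : ℝ} (hθ : 0 < θ) (hθ1 : θ < 1) (hr : (1 - θ) * r = θ) (hX : 0 ≤ X)
    (hA : 0 < A) (hK : 0 < K) :
    X ^ θ ≤ A ^ θ * K ^ (1 - θ) * (θ / A * (X * Real.exp (-s)) + (1 - θ) / K * Real.exp (r * s)) := by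
  have h := Real.geom_mean_le_arith_mean2_weighted hθ.le (by linarith : (0 : ℝ) ≤ 1 - θ)
    (by positivity : 0 ≤ X * Real.exp (-s) / A) (by positivity : 0 ≤ Real.exp (r * s) / K)
    (by ring)
  have h1 : (X * Real.exp (-s) / A) ^ θ * (Real.exp (r * s) / K) ^ (1 - θ) =
      X ^ θ / (A ^ θ * K ^ (1 - θ)) := by
    rw [Real.div_rpow (by positivity) hA.le, Real.mul_rpow hX (Real.exp_pos _).le,
      Real.div_rpow (Real.exp_pos _).le hK.le, ← Real.exp_mul, ← Real.exp_mul]
    have h2 : Real.exp (-s * θ) * Real.exp (r * s * (1 - θ)) = 1 := by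
      rw [← Real.exp_add, show -s * θ + r * s * (1 - θ) = s * ((1 - θ) * r - θ) by ring, hr,
        sub_self, mul_zero, Real.exp_zero]
    calc X ^ θ * Real.exp (-s * θ) / A ^ θ * (Real.exp (r * s * (1 - θ)) / K ^ (1 - θ))
        = X ^ θ * (Real.exp (-s * θ) * Real.exp (r * s * (1 - θ))) / (A ^ θ * K ^ (1 - θ)) := by
          rw [div_mul_div_comm]
          ring
      _ = X ^ θ / (A ^ θ * K ^ (1 - θ)) := by rw [h2, mul_one]
  rw [h1, div_le_iff₀ (by positivity)] at h
  refine h.trans (le_of_eq ?_)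
  ring

theorem tlt : S_TLT := by
  intro hP hM hc hc0 hsym hpos μ hμ hG β θ N q R hθ hθ1 x
  obtain ⟨hpath, hexp⟩ := hP hM hc hc0 hsym hpos μ hμ hG β N q R
  have hpath' : ∀ σ : Fin N → Fin 2 × Bool,
      Integrable (fun w => wt β N w σ * Real.exp (-(Tf N q R w) - Gf hc N q R / 2)) (PP μ) ∧
      ∫ w, wt β N w σ * Real.exp (-(Tf N q R w) - Gf hc N q R / 2) ∂(PP μ) = Yf hc β N q R σ := hpath
  have hexp' : ∀ r : ℝ, Integrable (fun w => Real.exp (r * Tf N q R w)) (PP μ) ∧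
      ∫ w, Real.exp (r * Tf N q R w) ∂(PP μ) = Real.exp (r ^ 2 * Gf hc N q R / 2) := hexp
  show ∫ w, (QQ N (wt β N w) x) ^ θ ∂(PP μ) ≤
    Real.exp (θ / (1 - θ) * Gf hc N q R / 2) * (QQ N (Yf hc β N q R) x) ^ θ
  clear hpath hexp
  generalize Gf hc N q R = G at hpath' hexp' ⊢
  have h1θ : 0 < 1 - θ := by linarith
  -- the first moment
  have e : (fun w => QQ N (wt β N w) x * Real.exp (-(Tf N q R w + G / 2))) =
      fun w => ((4 : ℝ) ^ N)⁻¹ * ∑ σ ∈ univ.filter (fun σ : Fin N → Fin 2 × Bool => pos σ N = x),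
        wt β N w σ * Real.exp (-(Tf N q R w) - G / 2) := by
    funext w
    unfold QQ
    rw [mul_assoc, Finset.sum_mul, neg_add']
  have hint : Integrable (fun w => QQ N (wt β N w) x * Real.exp (-(Tf N q R w + G / 2))) (PP μ) := by
    rw [e]
    exact (integrable_finset_sum _ fun σ _ => (hpath' σ).1).const_mul _
  have hval : ∫ w, QQ N (wt β N w) x * Real.exp (-(Tf N q R w + G / 2)) ∂(PP μ) =
      QQ N (Yf hc β N q R) x := by
    rw [e, integral_const_mul, integral_finset_sum _ fun σ _ => (hpath' σ).1]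
    unfold QQ
    congr 1
    exact Finset.sum_congr rfl fun σ _ => (hpath' σ).2
  have hX0 : ∀ w, 0 ≤ QQ N (wt β N w) x := by
    intro w
    unfold QQ
    exact mul_nonneg (by positivity) (Finset.sum_nonneg fun σ _ => (Real.exp_pos _).le)
  by_cases hne : (univ.filter (fun σ : Fin N → Fin 2 × Bool => pos σ N = x)).Nonempty
  · have hA : 0 < QQ N (Yf hc β N q R) x := by
      unfold QQ
      exact mul_pos (by positivity) (Finset.sum_pos (fun σ _ => Real.exp_pos _) hne)
    obtain ⟨r, hr⟩ : ∃ r : ℝ, r = θ / (1 - θ) := ⟨_, rfl⟩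
    have hr1 : (1 - θ) * r = θ := by rw [hr]; field_simp
    have e2 : (fun w => Real.exp (r * (Tf N q R w + G / 2))) =
        fun w => Real.exp (r * G / 2) * Real.exp (r * Tf N q R w) := by
      funext w
      rw [← Real.exp_add]
      congr 1
      ring
    have hint2 : Integrable (fun w => Real.exp (r * (Tf N q R w + G / 2))) (PP μ) := by
      rw [e2]
      exact (hexp' r).1.const_mul _
    have hval2 : ∫ w, Real.exp (r * (Tf N q R w + G / 2)) ∂(PP μ) =
        Real.exp (r * G / 2 + r ^ 2 * G / 2) := by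
      rw [e2, integral_const_mul, (hexp' r).2, ← Real.exp_add]
    obtain ⟨K, hK⟩ : ∃ K : ℝ, K = Real.exp (r * G / 2 + r ^ 2 * G / 2) := ⟨_, rfl⟩
    have hK0 : 0 < K := by rw [hK]; exact Real.exp_pos _
    obtain ⟨A, hAd⟩ : ∃ A : ℝ, A = QQ N (Yf hc β N q R) x := ⟨_, rfl⟩
    rw [← hAd] at hA hval ⊢
    rw [← hK] at hval2
    have hKθ : K ^ (1 - θ) = Real.exp (θ / (1 - θ) * G / 2) := by
      rw [hK, ← Real.exp_mul]
      congr 1
      have h2 : (r * G / 2 + r ^ 2 * G / 2) * (1 - θ) = (1 + r) * ((1 - θ) * r) * (G / 2) := by ring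
      rw [h2, hr1, hr]
      field_simp
      ring
    calc ∫ w, (QQ N (wt β N w) x) ^ θ ∂(PP μ)
        ≤ ∫ w, A ^ θ * K ^ (1 - θ) * (θ / A * (QQ N (wt β N w) x *
            Real.exp (-(Tf N q R w + G / 2))) +
            (1 - θ) / K * Real.exp (r * (Tf N q R w + G / 2))) ∂(PP μ) := by
          refine integral_mono_of_nonneg (Filter.Eventually.of_forall fun w =>
            Real.rpow_nonneg (hX0 w) θ) ?_ (Filter.Eventually.of_forall fun w =>
            pointwise hθ hθ1 hr1 (hX0 w) hA hK0)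
          exact ((hint.const_mul _).add (hint2.const_mul _)).const_mul _
      _ = A ^ θ * K ^ (1 - θ) * (θ / A * A + (1 - θ) / K * K) := by
          rw [integral_const_mul, integral_add (hint.const_mul _) (hint2.const_mul _),
            integral_const_mul, integral_const_mul, hval, hval2]
      _ = Real.exp (θ / (1 - θ) * G / 2) * A ^ θ := by
          rw [div_mul_cancel₀ _ hA.ne', div_mul_cancel₀ _ hK0.ne', hKθ]
          ring
  · rw [Finset.not_nonempty_iff_eq_empty] at hne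
    have h0 : ∀ F : (Fin N → Fin 2 × Bool) → ℝ, QQ N F x = 0 := by
      intro F
      unfold QQ
      rw [hne, Finset.sum_empty, mul_zero]
    simp only [h0, Real.zero_rpow hθ.ne', integral_zero, mul_zero, le_refl]

end Pool.Agent.P8H46.LPB
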